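import Pool.Agent.Helper47.SR.Goals

/-! # Project SR, packet TR2 -/

open Finset

namespace Pool.Agent.Helper85.SR

open Pool.Agent.Helper47.SR

lemma mv_subset {n : ℕ} (γ : Equiv.Perm (Fin n)) (A B : Finset (Fin n)) :
    mv γ B ⊆ mv γ A ↔ B ⊆ A := Finset.map_subset_map

lemma mv_card {n : ℕ} (γ : Equiv.Perm (Fin n)) (A : Finset (Fin n)) : #(mv γ A) = #A :=
  Finset.card_map _

lemma mv_erase {n : ℕ} (γ : Equiv.Perm (Fin n)) (A : Finset (Fin n)) (a : Fin n) :
    (mv γ A).erase (γ a) = mv γ (A.erase a) := by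
  ext x
  simp only [mv, Finset.mem_erase, Finset.mem_map, Equiv.coe_toEmbedding]
  constructor
  · rintro ⟨h1, b, hb, rfl⟩
    exact ⟨b, ⟨fun h => h1 (by rw [h]), hb⟩, rfl⟩
  · rintro ⟨b, ⟨h1, hb⟩, rfl⟩
    exact ⟨fun h => h1 (γ.injective h), b, hb, rfl⟩

lemma mem_dn {n m : ℕ} {F : Finset (Finset (Fin n))} {B : Finset (Fin n)} :
    B ∈ dn m F ↔ #B = m + 1 ∧ ∀ a ∈ B, B.erase a ∈ F := by
  simp [dn, Finset.mem_powersetCard]

lemma inv_dn {n : ℕ} (G : Grp n) (m : ℕ) (Y : Finset (Finset (Fin n))) (h : IsInv G Y) :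
    IsInv G (dn m Y) := by
  intro γ hγ A hA
  rw [mem_dn] at hA ⊢
  refine ⟨by rw [mv_card]; exact hA.1, ?_⟩
  intro b hb
  simp only [Finset.mem_map, Equiv.coe_toEmbedding] at hb
  obtain ⟨a, ha, rfl⟩ := hb
  rw [mv_erase]
  exact h γ hγ _ (hA.2 a ha)

theorem goal_TR2 (hLA : Goal_LA) (hTRADE : Goal_TRADE) : Goal_TR2 := by
  classical
  intro n G m Y hY hinv hlt
  refine hLA n G (dn m Y) Y (fun B A => if B ⊆ A then 1 else 0) (inv_dn G m Y hinv) hinv ?_ ?_
  · intro γ _ A B
    simp only [mv_subset]
  · intro f _ hsupp hsum A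
    by_contra hA
    have hcard : ∀ A, f A ≠ 0 → A ∈ dn m Y := fun A h => by
      by_contra h2
      exact h (hsupp A h2)
    have h1 := hTRADE (α := Fin n) univ (m + 1) 1 f le_rfl
      (fun A h => ⟨Finset.subset_univ _, (mem_dn.1 (hcard A h)).1⟩) ⟨A, hA⟩ ?_
    · have h2 : #((powersetCard (m + 1) (univ : Finset (Fin n))).filter (fun B => f B ≠ 0))
          ≤ #(dn m Y) := by
        refine Finset.card_le_card fun B hB => ?_
        exact hcard B (Finset.mem_filter.1 hB).2
      have h3 : #(dn m Y) ≤ W G (dn m Y) := by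
        unfold W
        rw [Finset.card_eq_sum_ones]
        exact Finset.sum_le_sum fun A _ => by omega
      have h4 : m + 1 + 1 - 1 = m + 1 := by omega
      rw [h4] at h1
      omega
    · intro C _ hC
      have hC' : #C = m := by omega
      by_cases hCY : C ∈ Y
      · have h2 := hsum C hCY
        simp only [ite_mul, one_mul, zero_mul] at h2
        rw [← Finset.sum_filter] at h2
        rw [← h2]
        symm
        refine Finset.sum_subset ?_ ?_
        · intro B hB
          rw [Finset.mem_filter] at hB ⊢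
          refine ⟨?_, hB.2⟩
          rw [Finset.mem_powersetCard]
          exact ⟨Finset.subset_univ _, (mem_dn.1 hB.1).1⟩
        · intro B hB hB2
          rw [Finset.mem_filter] at hB hB2
          refine hsupp B fun h => hB2 ⟨h, hB.2⟩
      · refine Finset.sum_eq_zero fun B hB => ?_
        rw [Finset.mem_filter, Finset.mem_powersetCard] at hB
        refine hsupp B fun h => ?_
        rw [mem_dn] at h
        have h5 : ∃ a ∈ B, a ∉ C := by
          by_contra hno
          push Not at hno
          have := Finset.card_le_card (show B ⊆ C from hno)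
          omega
        obtain ⟨a, haB, haC⟩ := h5
        have h6 : C = B.erase a := by
          refine Finset.eq_of_subset_of_card_le ?_ ?_
          · intro x hx
            rw [Finset.mem_erase]
            exact ⟨fun h => haC (h ▸ hx), hB.2 hx⟩
          · rw [Finset.card_erase_of_mem haB]
            omega
        exact hCY (h6 ▸ h.2 a haB)

end Pool.Agent.Helper85.SR
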